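import Pool.Agent.W5h12.CUB.Conn
import Pool.Agent.W5h12.CUB.Planar

set_option autoImplicit false

/-!
# Cubic 3-connected planar graphs with `fix(G) = O(√n)`

For every even `n ≥ 6` the spiral hexagonal tube on `n` vertices is cubic, 3-connected and planar,
and has a straight-line drawing in which every untangling keeps at most `C √n` vertices. Hence
`fix_𝒞(n) = O(√n)`.
-/

namespace Pool.Agent.Results.MP_0ea5e1_co.UntanglingCubic

open Pool.Agent.W5h12.CUB

theorem result : ∃ C : ℝ, 0 < C ∧ ∀ n : ℕ, Even n → 6 ≤ n →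
    (∃ G : SimpleGraph (Fin n), InC G ∧ (fixG G : ℝ) ≤ C * Real.sqrt n) ∧
      (fixC n : ℝ) ≤ C * Real.sqrt n := by
  refine ⟨600, by norm_num, ?_⟩
  intro n hn h6
  have hN : n % 2 = 0 := Nat.even_iff.1 hn
  have hmem : InC (tube n) := by
    refine ⟨tube_cubic hN h6, ?_, tube_conn hN h6, tube_planar hN⟩
    rw [Nat.card_eq_fintype_card, Fintype.card_fin]
    omega
  have hbound : (fixG (tube n) : ℝ) ≤ 600 * Real.sqrt n := by
    have h1 : (fixG (tube n) : ℝ) ≤ ((300 * (Nat.sqrt n + 1) : ℕ) : ℝ) := by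
      exact_mod_cast fixG_tube n hN
    have h2 : (Nat.sqrt n : ℝ) ≤ Real.sqrt n := Real.nat_sqrt_le_real_sqrt
    have h3 : (1 : ℝ) ≤ Real.sqrt n := by
      rw [Real.one_le_sqrt]
      exact_mod_cast (by omega : 1 ≤ n)
    push_cast at h1
    linarith
  have h4 : fixC n ≤ fixG (tube n) := Nat.sInf_le ⟨tube n, hmem, rfl⟩
  refine ⟨⟨tube n, hmem, hbound⟩, le_trans ?_ hbound⟩
  exact_mod_cast h4

end Pool.Agent.Results.MP_0ea5e1_co.UntanglingCubic
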